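import Pool.Agent.Q120.GE.Stm

set_option autoImplicit false

namespace Pool.Agent.Q111.GE

open Finset MeasureTheory Filter Pool.Agent.Q120.ET Pool.Agent.Q120.GM Pool.Agent.Q120.GE
open scoped Topology

theorem law_model {Ω : Type} [MeasurableSpace Ω] {μ : Measure Ω} [IsProbabilityMeasure μ] {A : Ω → Set ℕ}
    {p : ℕ → ℝ} (hA : IsModel μ p A) (B T : Finset ℕ) (hT : T ⊆ B) :
    lawOn μ A B T = (∏ n ∈ T, p n) * ∏ n ∈ B \ T, (1 - p n) := by
  classical
  have h1 : {ω | ∀ n ∈ B, (n ∈ A ω ↔ n ∈ T)} =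
      ⋂ n ∈ B, (if n ∈ T then {ω | n ∈ A ω} else {ω | n ∈ A ω}ᶜ) := by
    ext ω
    simp only [Set.mem_ofPred_eq, Set.mem_iInter]
    refine forall₂_congr fun n _ => ?_
    by_cases hn : n ∈ T
    · rw [if_pos hn]; simp [hn]
    · rw [if_neg hn]; simp [hn]
  have h2 := indep_many hA B (fun n => ({n} : Set ℕ)) (fun i _ j _ hij => by simpa using hij)
    (fun n => if n ∈ T then {ω | n ∈ A ω} else {ω | n ∈ A ω}ᶜ) (fun n _ => by
      by_cases hn : n ∈ T
      · simp only [hn, if_true]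
        exact F_mem (Set.mem_singleton n)
      · simp only [hn, if_false]
        exact MeasurableSet.compl (F_mem (Set.mem_singleton n)))
  unfold lawOn
  rw [h1, h2]
  have h3 : ∀ n ∈ B, μ.real (if n ∈ T then {ω | n ∈ A ω} else {ω | n ∈ A ω}ᶜ) =
      if n ∈ T then p n else 1 - p n := by
    intro n _
    by_cases hn : n ∈ T
    · rw [if_pos hn, if_pos hn, hA.prob]
    · rw [if_neg hn, if_neg hn, probReal_compl_eq_one_sub (hA.meas n), hA.prob]
  rw [prod_congr rfl h3, prod_ite]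
  congr 1
  · refine prod_congr ?_ fun _ _ => rfl
    ext n; simp only [mem_filter]; exact ⟨fun h => h.2, fun h => ⟨hT h, h⟩⟩
  · refine prod_congr ?_ fun _ _ => rfl
    ext n; rw [mem_filter, Finset.mem_sdiff]

theorem t_LAW : J_LAW := by
  intro Ω _ μ _ A
  refine ⟨fun p hA B T hT => law_model hA B T hT, fun hA B T hB hT => ?_⟩
  rw [law_model hA B T hT]
  unfold cramerOn
  have h : ∀ n ∈ B, pc n = 1 / Real.log n := fun n hn => by unfold pc; rw [if_pos (hB n hn)]
  congr 1
  · exact prod_congr rfl fun n hn => h n (hT hn)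
  · exact prod_congr rfl fun n hn => by rw [h n (Finset.mem_sdiff.1 hn).1]

theorem pc_nonneg (n : ℕ) : 0 ≤ pc n := by
  unfold pc
  split_ifs with h
  · have := one_lt_log h
    positivity
  · exact le_rfl

theorem pc_le_one (n : ℕ) : pc n ≤ 1 := by
  unfold pc
  split_ifs with h
  · have := one_lt_log h
    rw [div_le_one (by linarith)]
    exact this.le
  · exact zero_le_one

theorem exists_model : ∃ (Ω : Type) (_ : MeasurableSpace Ω) (μ : Measure Ω) (_ : IsProbabilityMeasure μ)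
    (A : Ω → Set ℕ), IsModel μ pc A :=
  ⟨ℕ → Bool, inferInstance, prodMeasure pc, inferInstance, trueSet,
    isModel pc pc_nonneg pc_le_one⟩

theorem low_three {k n : ℕ} (hn : n ∈ low k) : 3 ≤ n := (mem_Ico.1 hn).1

theorem t_ENT : J_ENT := by
  intro hLAW k F _ u hu hF Ω _ μ _ A hA
  obtain ⟨Ω', _, μ', _, A', hA'⟩ := exists_model
  have hB : ∀ n ∈ low (k + 1), 3 ≤ n := fun n hn => low_three hn
  have h1 := hF Ω' μ' A' hA'
  rw [real_event (μ := μ') (A := A') (fun n => hA'.meas n) (low (k + 1)) F] at h1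
  have h2 : ∀ T ∈ (low (k + 1)).powerset.filter F, lawOn μ' A' (low (k + 1)) T =
      cramerOn (low (k + 1)) T := fun T hT =>
    (hLAW Ω' μ' A').2 hA' _ T hB (mem_powerset.1 (mem_filter.1 hT).1)
  rw [sum_congr rfl h2] at h1
  have h3 := event_bound (μ := μ) hA hB F hu le_rfl h1
  rw [← Real.exp_add, add_neg_cancel, Real.exp_zero] at h3
  rw [add_comm (1 : ℝ)]
  exact h3

end Pool.Agent.Q111.GE
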