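import Pool.Agent.Q111.GE.LAW

set_option autoImplicit false

namespace Pool.Agent.Q111.GE

open Finset MeasureTheory Filter Pool.Agent.Q120.ET Pool.Agent.Q120.GM Pool.Agent.Q120.GE Pool.Agent.Q112.LE
open scoped Topology

/-- the smaller elements of the pairs -/
def JJ (n : ℕ) : Finset ℕ := (range (n + 1)).filter (fun a => 3 ≤ a ∧ 2 * a < n)

theorem half_sum {n : ℕ} {f : ℕ → ℝ} (h0 : ∀ a, 0 ≤ f a) (h1 : ∀ a, f a ≤ 1) (hs : ∀ a, a ≤ n → f (n - a) = f a)
    (h3 : ∀ a, a < 3 → f a = 0) :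
    2 * ∑ a ∈ JJ n, f a ≤ ∑ a ∈ range (n + 1), f a ∧ ∑ a ∈ range (n + 1), f a ≤ 2 * ∑ a ∈ JJ n, f a + 1 := by
  have e1 : ∀ a ∈ range (n + 1), f a = (if 2 * a < n then f a else 0) + (if n < 2 * a then f a else 0) +
      (if 2 * a = n then f a else 0) := by
    intro a _
    rcases lt_trichotomy (2 * a) n with h | h | h
    · rw [if_pos h, if_neg (by omega), if_neg (by omega)]; ring
    · rw [if_neg (by omega), if_neg (by omega), if_pos h]; ring
    · rw [if_neg (by omega), if_pos h, if_neg (by omega)]; ring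
  have e2 : ∑ a ∈ range (n + 1), (if n < 2 * a then f a else 0) =
      ∑ a ∈ range (n + 1), (if 2 * a < n then f a else 0) := by
    rw [← sum_flip (fun a => if n < 2 * a then f a else 0)]
    refine sum_congr rfl fun a ha => ?_
    have ha' : a ≤ n := by have := mem_range.1 ha; omega
    rw [hs a ha']
    by_cases h : 2 * a < n
    · rw [if_pos h, if_pos (by omega)]
    · rw [if_neg h, if_neg (by omega)]
  have e3 : ∑ a ∈ range (n + 1), (if 2 * a < n then f a else 0) = ∑ a ∈ JJ n, f a := by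
    unfold JJ
    rw [sum_filter]
    refine sum_congr rfl fun a _ => ?_
    by_cases h : 3 ≤ a
    · simp [h]
    · rw [h3 a (by omega)]; simp
  have e4 : 0 ≤ ∑ a ∈ range (n + 1), (if 2 * a = n then f a else 0) :=
    sum_nonneg fun a _ => by split_ifs <;> [exact h0 a; exact le_rfl]
  have e5 : ∑ a ∈ range (n + 1), (if 2 * a = n then f a else 0) ≤ 1 := by
    calc ∑ a ∈ range (n + 1), (if 2 * a = n then f a else 0)
        ≤ ∑ a ∈ range (n + 1), (if a = n / 2 then (1 : ℝ) else 0) := by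
          refine sum_le_sum fun a _ => ?_
          by_cases h : 2 * a = n
          · rw [if_pos h, if_pos (by omega)]; exact h1 a
          · rw [if_neg h]; split_ifs <;> norm_num
      _ ≤ 1 := by
          rw [sum_ite_eq']
          split_ifs <;> norm_num
  rw [sum_congr rfl e1, sum_add_distrib, sum_add_distrib, e2, e3]
  constructor <;> linarith

theorem rep_half {Ω : Type} (A : Ω → Set ℕ) (n : ℕ) (ω : Ω) :
    2 * num (JJ n) (fun a => all A {a, n - a}) ω ≤ (rep (A ω) n : ℝ) ∧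
      (rep (A ω) n : ℝ) ≤ 2 * num (JJ n) (fun a => all A {a, n - a}) ω + 1 := by
  classical
  set f : ℕ → ℝ := fun a => if a ∈ A ω ∧ n - a ∈ A ω ∧ 3 ≤ a ∧ 3 ≤ n - a ∧ a ≤ n then 1 else 0 with hf
  have e1 : (rep (A ω) n : ℝ) = ∑ a ∈ range (n + 1), f a := by
    unfold rep
    rw [card_filter]
    push_cast
    refine sum_congr rfl fun a ha => ?_
    have ha' : a ≤ n := by have := mem_range.1 ha; omega
    simp only [hf, ha', and_true]
  have e2 : num (JJ n) (fun a => all A {a, n - a}) ω = ∑ a ∈ JJ n, f a := by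
    unfold num
    refine sum_congr rfl fun a ha => ?_
    rw [JJ, mem_filter, mem_range] at ha
    have h1 : (ω ∈ all A {a, n - a}) ↔ (a ∈ A ω ∧ n - a ∈ A ω) := by
      simp [all]
    have h2 : 3 ≤ a := ha.2.1
    have h3 : 3 ≤ n - a := by omega
    have h4 : a ≤ n := by omega
    by_cases h : a ∈ A ω ∧ n - a ∈ A ω
    · rw [Set.indicator_of_mem (h1.2 h)]
      simp only [hf]
      rw [if_pos ⟨h.1, h.2, h2, h3, h4⟩]
    · rw [Set.indicator_of_notMem (fun hh => h (h1.1 hh))]
      simp only [hf]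
      rw [if_neg (fun hh => h ⟨hh.1, hh.2.1⟩)]
  have h := half_sum (n := n) (f := f) (fun a => by simp only [hf]; split_ifs <;> norm_num)
    (fun a => by simp only [hf]; split_ifs <;> norm_num)
    (fun a ha => by
      simp only [hf]
      have h1 : n - (n - a) = a := by omega
      rw [h1]
      congr 1
      apply propext
      constructor
      · rintro ⟨h1, h2, h3, h4, h5⟩; exact ⟨h2, h1, h4, h3, ha⟩
      · rintro ⟨h1, h2, h3, h4, h5⟩; exact ⟨h2, h1, h4, h3, by omega⟩)
    (fun a ha => by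
      simp only [hf]
      rw [if_neg]
      rintro ⟨_, _, h3, _, _⟩
      omega)
  rw [e1, e2]
  exact h

theorem mutual_pairs {Ω : Type} [MeasurableSpace Ω] {μ : Measure Ω} [IsProbabilityMeasure μ] {A : Ω → Set ℕ}
    (hA : IsModel μ pc A) (n : ℕ) : Mutual μ (JJ n) (fun a => all A {a, n - a}) := by
  intro T hT
  refine indep_many hA T (fun a => (({a, n - a} : Finset ℕ) : Set ℕ)) ?_ _ ?_
  · intro a ha b hb hab
    have h1 := mem_filter.1 (hT ha)
    have h2 := mem_filter.1 (hT hb)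
    rw [Finset.disjoint_coe, Finset.disjoint_left]
    intro x hx hy
    rw [mem_insert, mem_singleton] at hx hy
    omega
  · intro a _
    exact F_all (fun i hi => by exact_mod_cast hi)

theorem main_large (C : ℝ) (hC : 0 < C) : ∀ᶠ n : ℕ in atTop, C ≤ main n := by
  have hB : Tendsto (fun n : ℕ => Real.log n ^ 2 / (n : ℝ)) atTop (𝓝 0) := by
    have h := (Real.isLittleO_pow_log_id_atTop (n := 2)).tendsto_div_nhds_zero
    exact h.comp tendsto_natCast_atTop_atTop
  filter_upwards [hB.eventually_lt_const (show 0 < 1 / C by positivity), eventually_ge_atTop 3] with n h1 h2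
  have h0 := one_lt_log h2
  have hn : (3 : ℝ) ≤ n := by exact_mod_cast h2
  unfold main
  rw [le_div_iff₀ (by positivity)]
  rw [div_lt_div_iff₀ (by positivity) (by positivity)] at h1
  linarith

theorem t_DEV : J_DEV := by
  intro hMOM ε hε hε1
  refine ⟨ε ^ 2 / 128, by positivity, ?_⟩
  have h1 : ∀ᶠ n : ℕ in atTop, |(∑ a ∈ range (n + 1), pc a * pc (n - a)) / main n - 1| < ε / 16 := by
    have := (Metric.tendsto_nhds.1 hMOM) (ε / 16) (by positivity)
    simpa only [Real.dist_eq] using this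
  filter_upwards [h1, main_large (16 / ε) (by positivity), main_large (128 / ε ^ 2) (by positivity)] with n h1 h2 h3
  intro Ω _ μ _ A hA
  set m : ℝ := main n with hm
  have hm0 : 0 < m := lt_of_lt_of_le (by positivity) h2
  have hm1 : 1 ≤ ε / 16 * m := by
    have := mul_le_mul_of_nonneg_left h2 (show 0 ≤ ε / 16 by positivity)
    rwa [show ε / 16 * (16 / ε) = 1 by field_simp] at this
  have hm2 : 1 ≤ ε ^ 2 / 128 * m := by
    have := mul_le_mul_of_nonneg_left h3 (show 0 ≤ ε ^ 2 / 128 by positivity)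
    rwa [show ε ^ 2 / 128 * (128 / ε ^ 2) = 1 by field_simp] at this
  set M : ℝ := ∑ a ∈ JJ n, pc a * pc (n - a) with hM
  obtain ⟨g1, g2⟩ := half_sum (n := n) (f := fun a => if a ≤ n then pc a * pc (n - a) else 0)
    (fun a => by
      split_ifs
      · exact mul_nonneg (pc_nonneg _) (pc_nonneg _)
      · exact le_rfl)
    (fun a => by
      split_ifs
      · exact mul_le_one₀ (pc_le_one _) (pc_nonneg _) (pc_le_one _)
      · exact zero_le_one)
    (fun a ha => by
      rw [if_pos (Nat.sub_le n a), if_pos ha, show n - (n - a) = a by omega, mul_comm])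
    (fun a ha => by
      split_ifs
      · have : pc a = 0 := by unfold pc; rw [if_neg (by omega)]
        rw [this, zero_mul]
      · rfl)
  have g3 : ∑ a ∈ range (n + 1), (if a ≤ n then pc a * pc (n - a) else 0) =
      ∑ a ∈ range (n + 1), pc a * pc (n - a) :=
    sum_congr rfl fun a ha => if_pos (by have := mem_range.1 ha; omega)
  have g4 : ∑ a ∈ JJ n, (if a ≤ n then pc a * pc (n - a) else 0) = M :=
    sum_congr rfl fun a ha => if_pos (by have := mem_filter.1 ha; omega)
  rw [g3, g4] at g1 g2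
  set S : ℝ := ∑ a ∈ range (n + 1), pc a * pc (n - a) with hS
  have hS1 : |S - m| ≤ ε / 16 * m := by
    have e1 : S / m - 1 = (S - m) / m := by field_simp
    rw [e1, abs_div, abs_of_pos hm0, div_lt_iff₀ hm0] at h1
    exact h1.le
  obtain ⟨hS2, hS3⟩ := abs_le.1 hS1
  have hM1 : |2 * M - m| ≤ ε / 8 * m := by
    rw [abs_le]; constructor <;> linarith
  obtain ⟨hM2, hM3⟩ := abs_le.1 hM1
  have hεm : ε * m ≤ m := by nlinarith
  have hM4 : M ≤ 3 / 4 * m := by linarith
  have hM5 : 1 / 4 * m ≤ M := by linarith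
  have hM0 : 0 ≤ M := by linarith
  set κ : ℝ := ε / 2 with hκ
  set G : ℕ → Set Ω := fun a => all A {a, n - a} with hG
  have hGm : ∀ a ∈ JJ n, MeasurableSet (G a) := fun a _ => meas_all hA _
  have hGp : ∑ a ∈ JJ n, μ.real (G a) = M := by
    refine sum_congr rfl fun a ha => ?_
    simp only [hG]
    rw [real_all hA]
    have h4 := mem_filter.1 ha
    rw [prod_pair (by omega)]
  have hmut := mutual_pairs hA n
  have t1 := tail_up (l := κ / 2) hGm hmut (by positivity) ((1 + κ) * M)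
  have t2 := tail_down (l := κ / 2) hGm hmut (by positivity) ((1 - κ) * M)
  rw [hGp] at t1 t2
  have x1 : Real.exp (κ / 2) - 1 - κ / 2 ≤ (κ / 2) ^ 2 :=
    (le_abs_self _).trans (Real.abs_exp_sub_one_sub_id_le (by rw [abs_of_nonneg (by positivity)]; linarith))
  have x2 : Real.exp (-(κ / 2)) - 1 - (-(κ / 2)) ≤ (-(κ / 2)) ^ 2 :=
    (le_abs_self _).trans (Real.abs_exp_sub_one_sub_id_le (by rw [abs_neg, abs_of_nonneg (by positivity)]; linarith))
  have y1 : (Real.exp (κ / 2) - 1) * M - κ / 2 * ((1 + κ) * M) ≤ -(ε ^ 2 / 64 * m) := by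
    have z1 : (Real.exp (κ / 2) - 1 - κ / 2) * M ≤ (κ / 2) ^ 2 * M := mul_le_mul_of_nonneg_right x1 hM0
    have z2 : (κ / 2) ^ 2 * (1 / 4 * m) ≤ (κ / 2) ^ 2 * M := mul_le_mul_of_nonneg_left hM5 (by positivity)
    have z3 : (κ / 2) ^ 2 * (1 / 4 * m) = ε ^ 2 / 64 * m := by rw [hκ]; ring
    nlinarith
  have y2 : (Real.exp (-(κ / 2)) - 1) * M + κ / 2 * ((1 - κ) * M) ≤ -(ε ^ 2 / 64 * m) := by
    have z1 : (Real.exp (-(κ / 2)) - 1 - (-(κ / 2))) * M ≤ (-(κ / 2)) ^ 2 * M := mul_le_mul_of_nonneg_right x2 hM0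
    have z2 : (κ / 2) ^ 2 * (1 / 4 * m) ≤ (κ / 2) ^ 2 * M := mul_le_mul_of_nonneg_left hM5 (by positivity)
    have z3 : (κ / 2) ^ 2 * (1 / 4 * m) = ε ^ 2 / 64 * m := by rw [hκ]; ring
    nlinarith
  have hsub : {ω | ε * m ≤ |(rep (A ω) n : ℝ) - m|} ⊆
      {ω | (1 + κ) * M ≤ num (JJ n) G ω} ∪ {ω | num (JJ n) G ω ≤ (1 - κ) * M} := by
    intro ω hω
    have hω' : ε * m ≤ |(rep (A ω) n : ℝ) - m| := hω
    obtain ⟨r1, r2⟩ := rep_half A n ω
    by_contra hcon
    have hc1 : ¬ (1 + κ) * M ≤ num (JJ n) G ω := fun h => hcon (Or.inl h)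
    have hc2 : ¬ num (JJ n) G ω ≤ (1 - κ) * M := fun h => hcon (Or.inr h)
    rw [not_le] at hc1 hc2
    have hb : 2 * (κ * M) ≤ 3 / 4 * (ε * m) := by
      have : ε * M ≤ ε * (3 / 4 * m) := mul_le_mul_of_nonneg_left hM4 hε.le
      rw [hκ]; linarith
    have : |(rep (A ω) n : ℝ) - m| < ε * m := by
      have q0 : 0 < ε * m := by positivity
      have r1' : 2 * num (JJ n) G ω ≤ (rep (A ω) n : ℝ) := r1
      have r2' : (rep (A ω) n : ℝ) ≤ 2 * num (JJ n) G ω + 1 := r2
      have q1 : (1 + κ) * M = M + κ * M := by ring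
      have q2 : (1 - κ) * M = M - κ * M := by ring
      rw [q1] at hc1
      rw [q2] at hc2
      rw [abs_lt]
      constructor <;> linarith
    linarith
  refine (measureReal_mono hsub (measure_ne_top _ _)).trans ((measureReal_union_le _ _).trans ?_)
  have w1 := t1.trans (Real.exp_le_exp.2 y1)
  have w2 := t2.trans (Real.exp_le_exp.2 y2)
  refine (add_le_add w1 w2).trans ?_
  have w3 : Real.exp (-(ε ^ 2 / 64 * m)) = Real.exp (-(ε ^ 2 / 128 * m)) * Real.exp (-(ε ^ 2 / 128 * m)) := by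
    rw [← Real.exp_add]; ring_nf
  have w4 : Real.exp (-(ε ^ 2 / 128 * m)) ≤ 1 / 2 := by
    have w5 : Real.exp (-(ε ^ 2 / 128 * m)) ≤ Real.exp (-1) := Real.exp_le_exp.2 (by linarith)
    have w6 : Real.exp (-1) ≤ 1 / 2 := by
      rw [Real.exp_neg, inv_eq_one_div]
      apply one_div_le_one_div_of_le (by norm_num)
      have := Real.exp_one_gt_d9
      linarith
    exact w5.trans w6
  rw [w3]
  have w7 := Real.exp_pos (-(ε ^ 2 / 128 * m))
  nlinarith

end Pool.Agent.Q111.GE
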