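import Pool.Agent.Q120.GE.Stm

set_option autoImplicit false

namespace Pool.Agent.Q111.GE

open Finset MeasureTheory Filter Pool.Agent.Q120.ET Pool.Agent.Q120.GM Pool.Agent.Q120.GE
open scoped Topology

theorem eventually_cube' : ∀ᶠ k : ℕ in atTop, 200 * (k : ℝ) ^ 3 ≤ 2 ^ k := by
  have h : Summable (fun k : ℕ => (k : ℝ) ^ 3 / 2 ^ k) := by
    have h := summable_pow_mul_geometric_of_norm_lt_one (R := ℝ) 3 (r := 1 / 2) (by norm_num)
    refine h.congr fun k => ?_
    rw [one_div, inv_pow, div_eq_mul_inv]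
  filter_upwards [h.tendsto_atTop_zero.eventually_le_const (show (0 : ℝ) < 1 / 200 by norm_num)] with k hk
  rw [div_le_iff₀ (by positivity)] at hk
  linarith

theorem t_EXC : J_EXC := by
  intro hJAN
  obtain ⟨K, hK⟩ := eventually_atTop.1 eventually_cube'
  refine ⟨max K 200, le_max_right _ _, fun k hk Ω _ μ _ A hA m hm => ?_⟩
  have hkK : K ≤ k := (le_max_left _ _).trans hk
  have hk200 : 200 ≤ k := (le_max_right _ _).trans hk
  have hk3 := hK k hkK
  have hkr : (200 : ℝ) ≤ k := by exact_mod_cast hk200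
  classical
  set m' : ℕ := min m (k / 100) with hm'
  set I : Finset ℕ := Ico (2 ^ k) (2 ^ (k + 1)) with hI
  have hIcard : I.card = 2 ^ k := by
    rw [hI, Nat.card_Ico, pow_succ]; omega
  have hm'le : (m' : ℝ) ≤ k / 100 := by
    have h1 : m' ≤ k / 100 := min_le_right _ _
    have h2 : ((k / 100 : ℕ) : ℝ) ≤ (k : ℝ) / 100 := by
      have := @Nat.cast_div_le ℝ _ _ _ k 100
      simpa using this
    exact (Nat.cast_le.2 h1).trans h2
  have hsub : {ω | m ≤ exc (1 / 100) (A ω) k} ⊆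
      ⋃ T ∈ powersetCard m' I, {ω | ∀ n ∈ T, (rep (A ω) n : ℝ) ≤ 1 / 100 * main n} := by
    intro ω hω
    have h1 : m ≤ exc (1 / 100) (A ω) k := hω
    unfold exc at h1
    obtain ⟨T, hT, hTc⟩ := Finset.exists_subset_card_eq ((min_le_left m (k / 100)).trans h1)
    simp only [Set.mem_iUnion, exists_prop]
    refine ⟨T, mem_powersetCard.2 ⟨fun n hn => (mem_filter.1 (hT hn)).1, hTc⟩, fun n hn => ?_⟩
    exact (mem_filter.1 (hT hn)).2
  refine (measureReal_mono hsub (measure_ne_top _ _)).trans ?_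
  refine (measureReal_biUnion_finset_le _ _).trans ?_
  have hT : ∀ T ∈ powersetCard m' I, μ.real {ω | ∀ n ∈ T, (rep (A ω) n : ℝ) ≤ 1 / 100 * main n} ≤
      Real.exp (-(1 / 100 * (m' * 2 ^ k / (k : ℝ) ^ 2))) := by
    intro T hT
    rw [mem_powersetCard] at hT
    have := hJAN Ω μ A hA k (by omega) T hT.1 (by rw [hT.2]; exact hm'le)
    rwa [hT.2] at this
  refine (sum_le_sum hT).trans ?_
  rw [sum_const, card_powersetCard, hIcard, nsmul_eq_mul]
  have h1 : (((2 ^ k).choose m' : ℕ) : ℝ) ≤ Real.exp (m' * k) := by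
    have h2 : (2 ^ k).choose m' ≤ (2 ^ k) ^ m' := Nat.choose_le_pow _ _
    refine (Nat.cast_le.2 h2).trans ?_
    push_cast
    have e4 : (2 : ℝ) ^ k ≤ Real.exp k := by
      rw [← Real.exp_one_pow]
      exact pow_le_pow_left₀ (by norm_num) (by have := Real.exp_one_gt_d9; linarith) k
    rw [Real.exp_nat_mul]
    exact pow_le_pow_left₀ (by positivity) e4 _
  refine (mul_le_mul_of_nonneg_right h1 (Real.exp_pos _).le).trans ?_
  rw [← Real.exp_add, Real.exp_le_exp]
  have hm'0 : (0 : ℝ) ≤ m' := by positivity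
  have h2 : (k : ℝ) ≤ 2 ^ k / (200 * (k : ℝ) ^ 2) := by
    rw [le_div_iff₀ (by positivity)]
    calc (k : ℝ) * (200 * (k : ℝ) ^ 2) = 200 * (k : ℝ) ^ 3 := by ring
      _ ≤ _ := hk3
  have h3 : (m' : ℝ) * k ≤ m' * (2 ^ k / (200 * (k : ℝ) ^ 2)) := mul_le_mul_of_nonneg_left h2 hm'0
  have h4 : 1 / 100 * (m' * 2 ^ k / (k : ℝ) ^ 2) = 2 * (m' * (2 ^ k / (200 * (k : ℝ) ^ 2))) := by
    field_simp
    ring
  have h5 : cost k m / 40000 ≤ m' * (2 ^ k / (200 * (k : ℝ) ^ 2)) := by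
    unfold cost
    have h6 : min ((m : ℝ) / k ^ 2) (1 / k) / 200 ≤ m' / (k : ℝ) ^ 2 := by
      rcases le_total m (k / 100) with h | h
      · rw [hm', min_eq_left h]
        have e1 : min ((m : ℝ) / k ^ 2) (1 / k) ≤ (m : ℝ) / k ^ 2 := min_le_left _ _
        have e2 : (0 : ℝ) ≤ (m : ℝ) / k ^ 2 := by positivity
        linarith
      · rw [hm', min_eq_right h]
        have e1 : min ((m : ℝ) / k ^ 2) (1 / k) ≤ 1 / k := min_le_right _ _
        have e2 : (k : ℝ) / 200 ≤ ((k / 100 : ℕ) : ℝ) := by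
          have e3 : k < 100 * (k / 100) + 100 := by omega
          have e4 : (k : ℝ) < 100 * ((k / 100 : ℕ) : ℝ) + 100 := by exact_mod_cast e3
          linarith
        have e5 : (1 / (k : ℝ)) / 200 ≤ ((k / 100 : ℕ) : ℝ) / (k : ℝ) ^ 2 := by
          rw [le_div_iff₀ (by positivity)]
          have e6 : 1 / (k : ℝ) / 200 * (k : ℝ) ^ 2 = k / 200 := by field_simp
          rw [e6]; exact e2
        linarith
    have h7 : m' * (2 ^ k / (200 * (k : ℝ) ^ 2)) = 2 ^ k * (m' / (k : ℝ) ^ 2) / 200 := by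
      field_simp
    rw [h7]
    have h8 : (2 : ℝ) ^ k * (min ((m : ℝ) / k ^ 2) (1 / k) / 200) ≤ 2 ^ k * (m' / (k : ℝ) ^ 2) :=
      mul_le_mul_of_nonneg_left h6 (by positivity)
    linarith
  linarith

end Pool.Agent.Q111.GE
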