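import Pool.Agent.Q111.GE.LAW

set_option autoImplicit false

namespace Pool.Agent.Q111.GE

open Finset MeasureTheory Filter Pool.Agent.Q120.ET Pool.Agent.Q120.GM Pool.Agent.Q120.GE
open scoped Topology

theorem mom_lower {n : ℕ} (hn : 6 ≤ n) :
    ((n : ℝ) - 5) / Real.log n ^ 2 ≤ ∑ a ∈ range (n + 1), pc a * pc (n - a) := by
  have h0 := one_lt_log (n := n) (by omega)
  have h1 : Ico 3 (n - 2) ⊆ range (n + 1) := by
    intro a ha
    rw [mem_Ico] at ha
    rw [mem_range]; omega
  refine le_trans ?_ (sum_le_sum_of_subset_of_nonneg h1 fun a _ _ => mul_nonneg (pc_nonneg _) (pc_nonneg _))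
  have h2 : ∀ a ∈ Ico 3 (n - 2), 1 / Real.log n ^ 2 ≤ pc a * pc (n - a) := by
    intro a ha
    rw [mem_Ico] at ha
    have key : ∀ b : ℕ, 3 ≤ b → b ≤ n → 1 / Real.log n ≤ pc b := by
      intro b hb hbn
      unfold pc
      rw [if_pos hb]
      have e1 := one_lt_log hb
      apply one_div_le_one_div_of_le (by linarith)
      apply Real.log_le_log (by positivity)
      exact_mod_cast hbn
    have e1 := key a ha.1 (by omega)
    have e2 := key (n - a) (by omega) (by omega)
    have e3 : 1 / Real.log n ^ 2 = 1 / Real.log n * (1 / Real.log n) := by ring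
    rw [e3]
    have e4 : 0 ≤ 1 / Real.log n := by positivity
    exact mul_le_mul e1 e2 e4 (e4.trans e1)
  refine le_trans (le_of_eq ?_) (sum_le_sum h2)
  rw [sum_const, Nat.card_Ico, nsmul_eq_mul]
  have h3 : ((n - 2 - 3 : ℕ) : ℝ) = (n : ℝ) - 5 := by
    rw [Nat.sub_sub, Nat.cast_sub (by omega)]
    norm_num
  rw [h3]
  ring

theorem sum_ind_le (n : ℕ) {y : ℝ} (hy : 0 ≤ y) :
    ∑ a ∈ range (n + 1), (if (a : ℝ) < y then (1 : ℝ) else 0) ≤ y + 1 := by
  rw [← sum_filter, sum_const, nsmul_eq_mul, mul_one]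
  have h1 : (range (n + 1)).filter (fun a : ℕ => (a : ℝ) < y) ⊆ range ⌈y⌉₊ := by
    intro a ha
    rw [mem_range]
    exact Nat.lt_ceil.2 (mem_filter.1 ha).2
  have h2 := card_le_card h1
  rw [card_range] at h2
  have h3 : (((range (n + 1)).filter (fun a : ℕ => (a : ℝ) < y)).card : ℝ) ≤ ⌈y⌉₊ := by exact_mod_cast h2
  exact h3.trans (Nat.ceil_lt_add_one hy).le

theorem mom_upper {n : ℕ} {y : ℝ} (hy : 1 < y) :
    ∑ a ∈ range (n + 1), pc a * pc (n - a) ≤ 2 * (y + 1) + ((n : ℝ) + 1) / Real.log y ^ 2 := by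
  have hly : 0 < Real.log y := Real.log_pos hy
  have h1 : ∀ a ∈ range (n + 1), pc a * pc (n - a) ≤
      (if (a : ℝ) < y then (1 : ℝ) else 0) + (if ((n - a : ℕ) : ℝ) < y then (1 : ℝ) else 0) +
        1 / Real.log y ^ 2 := by
    intro a _
    have key : ∀ b : ℕ, ¬ (b : ℝ) < y → pc b ≤ 1 / Real.log y := by
      intro b hb
      unfold pc
      split_ifs with h
      · apply one_div_le_one_div_of_le hly
        exact Real.log_le_log (by linarith) (not_lt.1 hb)
      · positivity
    have h2 : pc a * pc (n - a) ≤ 1 := mul_le_one₀ (pc_le_one _) (pc_nonneg _) (pc_le_one _)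
    have h3 : 0 ≤ 1 / Real.log y ^ 2 := by positivity
    by_cases ha : (a : ℝ) < y
    · rw [if_pos ha]
      split_ifs <;> linarith
    · rw [if_neg ha]
      by_cases hb : ((n - a : ℕ) : ℝ) < y
      · rw [if_pos hb]
        linarith
      · rw [if_neg hb]
        have e1 := key a ha
        have e2 := key (n - a) hb
        have e3 : 1 / Real.log y ^ 2 = 1 / Real.log y * (1 / Real.log y) := by ring
        rw [e3]
        have := mul_le_mul e1 e2 (pc_nonneg _) (by positivity)
        linarith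
  refine (sum_le_sum h1).trans ?_
  rw [sum_add_distrib, sum_add_distrib, sum_const, card_range, nsmul_eq_mul]
  have h2 := sum_ind_le n (y := y) (by linarith)
  have h3 : ∑ a ∈ range (n + 1), (if ((n - a : ℕ) : ℝ) < y then (1 : ℝ) else 0) =
      ∑ a ∈ range (n + 1), (if (a : ℝ) < y then (1 : ℝ) else 0) :=
    sum_flip (fun a : ℕ => if (a : ℝ) < y then (1 : ℝ) else 0)
  rw [h3]
  have h4 : ((n + 1 : ℕ) : ℝ) * (1 / Real.log y ^ 2) = ((n : ℝ) + 1) / Real.log y ^ 2 := by
    push_cast; ring
  rw [h4]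
  linarith

theorem t_MOM : J_MOM := by
  unfold J_MOM
  have hlog : Tendsto (fun n : ℕ => Real.log n) atTop atTop :=
    Real.tendsto_log_atTop.comp tendsto_natCast_atTop_atTop
  have hn0 : Tendsto (fun n : ℕ => 1 / (n : ℝ)) atTop (𝓝 0) := tendsto_one_div_atTop_nhds_zero_nat
  have hA : Tendsto (fun n : ℕ => 1 / Real.log n) atTop (𝓝 0) := by
    simp only [one_div]
    exact hlog.inv_tendsto_atTop
  have hB : Tendsto (fun n : ℕ => Real.log n ^ 2 / (n : ℝ)) atTop (𝓝 0) := by
    have h := (Real.isLittleO_pow_log_id_atTop (n := 2)).tendsto_div_nhds_zero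
    exact h.comp tendsto_natCast_atTop_atTop
  have hC : Tendsto (fun n : ℕ => Real.log (Real.log n) / Real.log n) atTop (𝓝 0) := by
    have h := Real.isLittleO_log_id_atTop.tendsto_div_nhds_zero
    exact h.comp hlog
  have hlo : Tendsto (fun n : ℕ => 1 - 5 * (1 / (n : ℝ))) atTop (𝓝 1) := by
    have := (hn0.const_mul 5).const_sub 1
    simpa using this
  have hup : Tendsto (fun n : ℕ => 2 * (1 / Real.log n) + 2 * (Real.log n ^ 2 / (n : ℝ)) +
      (1 + 1 / (n : ℝ)) / (1 - 3 * (Real.log (Real.log n) / Real.log n)) ^ 2) atTop (𝓝 1) := by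
    have h1 : Tendsto (fun n : ℕ => (1 + 1 / (n : ℝ)) / (1 - 3 * (Real.log (Real.log n) / Real.log n)) ^ 2)
        atTop (𝓝 ((1 + 0) / (1 - 3 * 0) ^ 2)) := by
      refine Tendsto.div (hn0.const_add 1) (((hC.const_mul 3).const_sub 1).pow 2) (by norm_num)
    have h2 := ((hA.const_mul 2).add (hB.const_mul 2)).add h1
    simpa using h2
  refine tendsto_of_tendsto_of_tendsto_of_le_of_le' hlo hup ?_ ?_
  · filter_upwards [eventually_ge_atTop 6] with n hn
    have h0 := one_lt_log (n := n) (by omega)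
    have hnr : (6 : ℝ) ≤ n := by exact_mod_cast hn
    have hm : 0 < main n := by unfold main; positivity
    rw [le_div_iff₀ hm]
    refine le_trans (le_of_eq ?_) (mom_lower hn)
    unfold main
    field_simp
  · have h3 : ∀ᶠ n : ℕ in atTop, Real.log (Real.log n) / Real.log n < 1 / 6 :=
      hC.eventually_lt_const (by norm_num)
    filter_upwards [h3, eventually_ge_atTop 6] with n h3 hn
    have h0 := one_lt_log (n := n) (by omega)
    have hnr : (6 : ℝ) ≤ n := by exact_mod_cast hn
    have hm : 0 < main n := by unfold main; positivity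
    have hL0 : 0 < Real.log n := by linarith
    have hly : Real.log ((n : ℝ) / Real.log n ^ 3) = Real.log n - 3 * Real.log (Real.log n) := by
      rw [Real.log_div (by positivity) (by positivity), Real.log_pow]
      norm_num
    have h4 : Real.log (Real.log n) < 1 / 6 * Real.log n := by rwa [div_lt_iff₀ hL0] at h3
    have hy : 1 < (n : ℝ) / Real.log n ^ 3 := by
      have e1 : 0 < Real.log ((n : ℝ) / Real.log n ^ 3) := by rw [hly]; linarith
      by_contra hcon
      have := Real.log_nonpos (by positivity) (not_lt.1 hcon)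
      linarith
    rw [div_le_iff₀ hm]
    refine (mom_upper hy).trans (le_of_eq ?_)
    rw [hly]
    have e1 : Real.log n - 3 * Real.log (Real.log n) ≠ 0 := by
      have : 0 < Real.log n - 3 * Real.log (Real.log n) := by linarith
      exact this.ne'
    have e2 : 1 - 3 * (Real.log (Real.log n) / Real.log n) =
        (Real.log n - 3 * Real.log (Real.log n)) / Real.log n := by
      field_simp
    rw [e2]
    unfold main
    field_simp

end Pool.Agent.Q111.GE
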