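import Pool.Agent.Q120.GE.Stm

set_option autoImplicit false

namespace Pool.Agent.Q111.GE

open Finset MeasureTheory Filter Pool.Agent.Q120.ET Pool.Agent.Q120.GM Pool.Agent.Q120.GE
open scoped Topology

theorem summable_rec {u v : ℕ → ℝ} (hu : ∀ n, 0 ≤ u n) (hv : ∀ n, 0 ≤ v n) (hs : Summable v)
    (h : ∀ n, u (n + 1) ≤ 3 / 4 * u n + v n) : Summable u := by
  refine summable_of_sum_range_le (c := 4 * (u 0 + ∑' n, v n)) hu fun n => ?_
  have hV : 0 ≤ ∑' n, v n := tsum_nonneg hv
  induction n with
  | zero =>
    have := hu 0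
    simp only [range_zero, sum_empty]
    positivity
  | succ n ih =>
    rw [sum_range_succ']
    have h1 : ∑ i ∈ range n, u (i + 1) ≤ 3 / 4 * ∑ i ∈ range n, u i + ∑ i ∈ range n, v i := by
      rw [mul_sum, ← sum_add_distrib]
      exact sum_le_sum fun i _ => h i
    have h2 : ∑ i ∈ range n, v i ≤ ∑' n, v n := hs.sum_le_tsum _ fun i _ => hv i
    linarith

theorem t_SEQ : J_SEQ := by
  intro d C hd hd0 hC hns
  set s : ℕ → ℝ := fun j => ((j : ℝ) + 1) ^ 2 / 2 ^ j with hs
  have hspos : ∀ j, 0 < s j := fun j => by simp only [hs]; positivity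
  set Δ : ℕ → ℝ := fun j => if j = 0 then d 0 else d j - d (j - 1) with hΔ
  have hΔ0 : ∀ j, 0 ≤ Δ j := by
    intro j
    simp only [hΔ]
    split_ifs with h
    · exact hd0 0
    · exact sub_nonneg.mpr (hd (Nat.sub_le j 1))
  have hΔsum : ∀ k, ∑ j ∈ range (k + 1), Δ j = d k := by
    intro k
    induction k with
    | zero => simp [hΔ]
    | succ k ih =>
      rw [sum_range_succ, ih]
      simp only [hΔ, Nat.succ_ne_zero, if_false, Nat.add_sub_cancel]
      ring
  refine ⟨fun j => min 1 (Δ j * s j / C), fun k => ⟨?_, min_le_left _ _⟩, ?_, fun k => ?_⟩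
  · have := hΔ0 k
    have := hspos k
    exact le_min zero_le_one (by positivity)
  · intro hsum
    apply hns
    have hlim := hsum.tendsto_atTop_zero
    have hev : ∀ᶠ j in atTop, min 1 (Δ j * s j / C) < 1 := hlim.eventually_lt_const one_pos
    obtain ⟨J0, hJ0⟩ := eventually_atTop.1 hev
    set J := max J0 4 with hJ
    have hq : ∀ j, J ≤ j → Δ j * s j = C * min 1 (Δ j * s j / C) := by
      intro j hj
      have h1 := hJ0 j ((le_max_left _ _).trans hj)
      have h2 : Δ j * s j / C ≤ 1 := by
        by_contra hcon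
        rw [min_eq_left (le_of_lt (not_le.mp hcon))] at h1
        exact lt_irrefl _ h1
      rw [min_eq_right h2]
      field_simp
    have hmain : Summable fun n => d (n + J) * s (n + J) := by
      refine summable_rec (v := fun n => C * min 1 (Δ (n + 1 + J) * s (n + 1 + J) / C))
        (fun n => mul_nonneg (hd0 _) (hspos _).le) (fun n => ?_) ?_ (fun n => ?_)
      · have := hΔ0 (n + 1 + J)
        have := hspos (n + 1 + J)
        exact mul_nonneg hC.le (le_min zero_le_one (by positivity))
      · have h1 : Summable fun n => min 1 (Δ (n + (1 + J)) * s (n + (1 + J)) / C) :=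
          (summable_nat_add_iff (1 + J)).mpr hsum
        refine (h1.mul_left C).congr fun n => ?_
        rw [add_assoc]
      · show d (n + 1 + J) * s (n + 1 + J) ≤ _
        rw [← hq (n + 1 + J) (by omega)]
        have h1 : Δ (n + 1 + J) = d (n + 1 + J) - d (n + J) := by
          simp only [hΔ]
          rw [if_neg (by omega)]
          congr 2
          omega
        have h2 : s (n + 1 + J) ≤ 3 / 4 * s (n + J) := by
          have h3 : 4 ≤ n + J := (le_max_right J0 4).trans (Nat.le_add_left _ _)
          have h4 : (4 : ℝ) ≤ ((n + J : ℕ) : ℝ) := by exact_mod_cast h3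
          have e1 : n + 1 + J = (n + J) + 1 := by omega
          rw [e1]
          simp only [hs]
          set x : ℝ := ((n + J : ℕ) : ℝ) with hx
          have e2 : (((n + J + 1 : ℕ)) : ℝ) = x + 1 := by push_cast [hx]; ring
          have h5 : 0 < (2 : ℝ) ^ (n + J) := by positivity
          have e3 : (2 : ℝ) ^ (n + J + 1) = 2 * 2 ^ (n + J) := by rw [pow_succ, mul_comm]
          rw [e2, e3]
          generalize (2 : ℝ) ^ (n + J) = t at h5
          have h6 : (x + 1 + 1) ^ 2 ≤ 3 / 2 * (x + 1) ^ 2 := by nlinarith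
          rw [div_le_iff₀ (by positivity)]
          have e4 : 3 / 4 * ((x + 1) ^ 2 / t) * (2 * t) = 3 / 2 * (x + 1) ^ 2 := by
            field_simp
            ring
          rw [e4]
          exact h6
        rw [h1]
        have h3 := hd0 (n + J)
        nlinarith
    have : Summable fun n => d n * s n := (summable_nat_add_iff J).mp hmain
    refine this.congr fun n => ?_
    simp only [hs]; ring
  · rw [← hΔsum k]
    refine sum_le_sum fun j _ => ?_
    have h1 : min 1 (Δ j * s j / C) ≤ Δ j * s j / C := min_le_right _ _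
    have h2 : (0 : ℝ) ≤ C * 2 ^ j / ((j : ℝ) + 1) ^ 2 := by positivity
    refine (mul_le_mul_of_nonneg_right h1 h2).trans (le_of_eq ?_)
    simp only [hs]
    have h3 : ((j : ℝ) + 1) ^ 2 ≠ 0 := by positivity
    have h4 : (2 : ℝ) ^ j ≠ 0 := by positivity
    field_simp

end Pool.Agent.Q111.GE
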