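import Pool.Agent.Q111.GE.LAW

set_option autoImplicit false

namespace Pool.Agent.Q111.GE

open Finset MeasureTheory Filter Pool.Agent.Q120.ET Pool.Agent.Q120.GM Pool.Agent.Q120.GE
open scoped Topology

theorem log_blk {k n : ℕ} (hn : n ∈ blk k) : 0.6931 * (k : ℝ) ≤ Real.log n := by
  rw [blk, mem_Ico, max_le_iff] at hn
  have h1 : (2 : ℝ) ^ k ≤ n := by exact_mod_cast hn.1.2
  have h2 := Real.log_le_log (by positivity) h1
  rw [Real.log_pow] at h2
  have h3 := Real.log_two_gt_d9
  have h4 : (0 : ℝ) ≤ k := by positivity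
  nlinarith

theorem blk_three {k n : ℕ} (hn : n ∈ blk k) : 3 ≤ n ∧ 1 ≤ k := by
  rw [blk, mem_Ico, max_le_iff] at hn
  refine ⟨hn.1.1, ?_⟩
  by_contra h
  have hk : k = 0 := by omega
  subst hk
  simp at hn
  omega

theorem log_three : (1.04 : ℝ) ≤ Real.log 3 := by
  rw [Real.le_log_iff_exp_le (by norm_num)]
  have h1 : Real.exp (0.04 : ℝ) ≤ 1.0417 := by
    have h2 := Real.add_one_le_exp (-0.04 : ℝ)
    rw [Real.exp_neg] at h2
    have h3 := Real.exp_pos (0.04 : ℝ)
    have h4 : (0.96 : ℝ) * Real.exp 0.04 ≤ 1 := by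
      have h5 : (-0.04 + 1) * Real.exp 0.04 ≤ (Real.exp 0.04)⁻¹ * Real.exp 0.04 :=
        mul_le_mul_of_nonneg_right h2 h3.le
      rw [inv_mul_cancel₀ h3.ne'] at h5
      linarith
    nlinarith
  have h2 : Real.exp (1.04 : ℝ) = Real.exp 1 * Real.exp 0.04 := by rw [← Real.exp_add]; norm_num
  rw [h2]
  have h3 := Real.exp_one_lt_d9
  have h4 := Real.exp_pos (1 : ℝ)
  have h5 := Real.exp_pos (0.04 : ℝ)
  nlinarith

theorem lam_nonneg {n : ℕ} (hn : 3 ≤ n) : 0 ≤ lam n := by
  unfold lam
  have h1 := one_lt_log hn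
  have h2 : Real.log (1 - 1 / Real.log n) ≤ 0 := by
    apply Real.log_nonpos
    · rw [sub_nonneg, div_le_one (by linarith)]; exact h1.le
    · have : 0 < 1 / Real.log n := by positivity
      linarith
  linarith

theorem lam_le_of {n : ℕ} {c : ℝ} (h : Real.exp (-c) ≤ 1 - 1 / Real.log n) : lam n ≤ c := by
  unfold lam
  have h1 := Real.log_le_log (Real.exp_pos _) h
  rw [Real.log_exp] at h1
  linarith

theorem lam_le {k n : ℕ} (hn : n ∈ blk k) : lam n ≤ 7 / (k + 1) := by
  obtain ⟨h3, hk1⟩ := blk_three hn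
  have hL := log_blk hn
  have hL1 := one_lt_log h3
  rcases Nat.lt_or_ge k 3 with hk | hk
  · interval_cases k
    · -- k = 1
      have hn3 : n = 3 := by
        rw [blk, mem_Ico] at hn
        norm_num at hn
        omega
      subst hn3
      apply lam_le_of
      have h4 := log_three
      have h5 : (1 : ℝ) - 1 / 1.04 ≤ 1 - 1 / Real.log ((3 : ℕ) : ℝ) := by
        have : 1 / Real.log ((3 : ℕ) : ℝ) ≤ 1 / 1.04 := by
          apply one_div_le_one_div_of_le (by norm_num)
          exact_mod_cast h4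
        linarith
      refine le_trans ?_ h5
      have h6 : (27 : ℝ) ≤ Real.exp (7 / 2) := by
        have h7 : Real.exp (7 / 2 : ℝ) = Real.exp 1 ^ 3 * Real.exp (1 / 2) := by
          rw [← Real.exp_nat_mul, ← Real.exp_add]; norm_num
        rw [h7]
        have h8 := Real.exp_one_gt_d9
        have h9 := Real.add_one_le_exp (1 / 2 : ℝ)
        have h10 : (2.7 : ℝ) ^ 3 ≤ Real.exp 1 ^ 3 := pow_le_pow_left₀ (by norm_num) (by linarith) 3
        calc (27 : ℝ) ≤ 2.7 ^ 3 * (1 / 2 + 1) := by norm_num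
          _ ≤ _ := mul_le_mul h10 h9 (by norm_num) (by positivity)
      have h7 : (7 : ℝ) / (((1 : ℕ) : ℝ) + 1) = 7 / 2 := by norm_num
      rw [h7, Real.exp_neg]
      calc (Real.exp (7 / 2))⁻¹ ≤ (27 : ℝ)⁻¹ := inv_anti₀ (by norm_num) h6
        _ ≤ _ := by norm_num
    · -- k = 2
      apply lam_le_of
      have h5 : (1 : ℝ) - 1 / 1.3862 ≤ 1 - 1 / Real.log n := by
        have : 1 / Real.log n ≤ 1 / 1.3862 := by
          apply one_div_le_one_div_of_le (by norm_num)
          push_cast at hL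
          linarith
        linarith
      refine le_trans ?_ h5
      have h6 : (7 : ℝ) ≤ Real.exp (7 / 3) := by
        have h7 : Real.exp (7 / 3 : ℝ) ≥ Real.exp 1 ^ 2 := by
          rw [← Real.exp_nat_mul]
          apply Real.exp_le_exp.2
          norm_num
        have h8 := Real.exp_one_gt_d9
        have h10 : (2.7 : ℝ) ^ 2 ≤ Real.exp 1 ^ 2 := pow_le_pow_left₀ (by norm_num) (by linarith) 2
        linarith
      have h7 : (7 : ℝ) / (((2 : ℕ) : ℝ) + 1) = 7 / 3 := by norm_num
      rw [h7, Real.exp_neg]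
      calc (Real.exp (7 / 3))⁻¹ ≤ (7 : ℝ)⁻¹ := inv_anti₀ (by norm_num) h6
        _ ≤ _ := by norm_num
  · -- k ≥ 3
    have hkr : (3 : ℝ) ≤ k := by exact_mod_cast hk
    have h1 : lam n ≤ 1 / (Real.log n - 1) := by
      unfold lam
      have h2 : 0 < 1 - 1 / Real.log n := by
        rw [sub_pos, div_lt_one (by linarith)]; exact hL1
      have h4 := Real.one_sub_inv_le_log_of_pos h2
      have h5 : (1 - 1 / Real.log n)⁻¹ = 1 + 1 / (Real.log n - 1) := by
        have e1 : Real.log n ≠ 0 := by linarith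
        have e2 : Real.log n - 1 ≠ 0 := by linarith
        field_simp
        ring
      rw [h5] at h4
      linarith
    refine h1.trans ?_
    rw [div_le_div_iff₀ (by linarith) (by positivity)]
    linarith

theorem sum_pc (k : ℕ) : ∑ n ∈ low k, pc n ≤ 6 * 2 ^ k / ((k : ℝ) + 1) := by
  induction k with
  | zero =>
    have : low 0 = ∅ := by unfold low; rfl
    rw [this, sum_empty]
    positivity
  | succ k ih =>
    rcases Nat.eq_zero_or_pos k with hk0 | hk0
    · subst hk0
      have : low (0 + 1) = ∅ := by unfold low; rfl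
      rw [this, sum_empty]
      positivity
    have h1 : low (k + 1) ⊆ low k ∪ blk k := by
      intro n hn
      simp only [low, blk, mem_union, mem_Ico] at hn ⊢
      by_cases h : n < 2 ^ k
      · left; exact ⟨hn.1, h⟩
      · right; exact ⟨max_le hn.1 (not_lt.1 h), hn.2⟩
    have h2 : ∑ n ∈ low (k + 1), pc n ≤ ∑ n ∈ low k, pc n + ∑ n ∈ blk k, pc n := by
      refine (sum_le_sum_of_subset_of_nonneg h1 fun n _ _ => pc_nonneg n).trans ?_
      rw [← sum_union_inter]
      have := sum_nonneg fun n (_ : n ∈ low k ∩ blk k) => pc_nonneg n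
      linarith
    have h3 : ∑ n ∈ blk k, pc n ≤ (2 : ℝ) ^ k * (3 / ((k : ℝ) + 2)) := by
      have h4 : ∀ n ∈ blk k, pc n ≤ 3 / ((k : ℝ) + 2) := by
        intro n hn
        obtain ⟨h3, hk1⟩ := blk_three hn
        have hkr : (1 : ℝ) ≤ k := by exact_mod_cast hk1
        rcases Nat.lt_or_ge k 2 with hk | hk
        · have hk' : k = 1 := by omega
          subst hk'
          refine (pc_le_one n).trans ?_
          norm_num
        · have hkr : (2 : ℝ) ≤ k := by exact_mod_cast hk
          unfold pc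
          rw [if_pos h3]
          have hL := log_blk hn
          rw [div_le_div_iff₀ (by linarith) (by positivity)]
          linarith
      refine (sum_le_sum h4).trans ?_
      rw [sum_const, nsmul_eq_mul]
      refine mul_le_mul_of_nonneg_right ?_ (by positivity)
      have h5 : (blk k).card ≤ 2 ^ k := by
        rw [blk, Nat.card_Ico, pow_succ]
        have := le_max_right 3 (2 ^ k)
        omega
      exact_mod_cast h5
    refine h2.trans ((add_le_add ih h3).trans ?_)
    push_cast
    · have hkr : (1 : ℝ) ≤ k := by exact_mod_cast hk0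
      have e1 : (k : ℝ) + 1 + 1 = k + 2 := by ring
      rw [e1, pow_succ]
      have h5 : 6 * (2 : ℝ) ^ k / ((k : ℝ) + 1) + 2 ^ k * (3 / ((k : ℝ) + 2)) =
          2 ^ k * (6 / ((k : ℝ) + 1) + 3 / (k + 2)) := by ring
      have h6 : 6 * ((2 : ℝ) ^ k * 2) / ((k : ℝ) + 2) = 2 ^ k * (12 / ((k : ℝ) + 2)) := by ring
      rw [h5, h6]
      refine mul_le_mul_of_nonneg_left ?_ (by positivity)
      rw [div_add_div _ _ (by positivity) (by positivity), div_le_div_iff₀ (by positivity) (by positivity)]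
      nlinarith

theorem t_SIZE : J_SIZE := by
  refine ⟨fun k n hn => ⟨lam_nonneg (blk_three hn).1, lam_le hn⟩, 6, by norm_num, sum_pc, ?_⟩
  intro Ω _ μ _ A R hA hR hAR k
  classical
  have h1 : ∑ T ∈ (low k).powerset, lawOn μ A (low k) T * T.card =
      ∑ n ∈ low k, μ.real {ω | n ∈ A ω} := by
    have h2 : ∀ T ∈ (low k).powerset, lawOn μ A (low k) T * T.card =
        ∑ n ∈ low k, if n ∈ T then lawOn μ A (low k) T else 0 := by
      intro T hT
      rw [mem_powerset] at hT
      rw [← sum_filter, filter_mem_eq_inter, inter_eq_right.2 hT, sum_const, nsmul_eq_mul, mul_comm]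
    rw [sum_congr rfl h2, sum_comm]
    refine sum_congr rfl fun n hn => ?_
    rw [← sum_filter]
    have h3 := real_event (μ := μ) hA (low k) (fun T => n ∈ T)
    rw [← h3]
    congr 1
    ext ω
    simp only [Set.mem_ofPred_eq, mem_tr]
    exact ⟨fun h => h.2, fun h => ⟨hn, h⟩⟩
  rw [h1]
  refine le_trans (sum_le_sum fun n _ => ?_) (sum_pc k)
  rw [← hR.prob n]
  exact measureReal_mono (fun ω hω => hAR ω hω) (measure_ne_top _ _)

end Pool.Agent.Q111.GE
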