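import Pool.Agent.Q111.GE.LAW

set_option autoImplicit false

namespace Pool.Agent.Q111.GE

open Finset MeasureTheory Filter Pool.Agent.Q120.ET Pool.Agent.Q120.GM Pool.Agent.Q120.GE
open scoped Topology

theorem main_nonneg (n : ℕ) : 0 ≤ main n := by unfold main; positivity

theorem main_ge {k n : ℕ} (hk : 1 ≤ k) (hn : n ∈ Ico (2 ^ k) (2 ^ (k + 1))) :
    (2 : ℝ) ^ k / ((k : ℝ) + 1) ^ 2 ≤ main n := by
  rw [mem_Ico] at hn
  have h1 : (2 : ℝ) ^ k ≤ n := by exact_mod_cast hn.1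
  have h2 : (n : ℝ) < 2 ^ (k + 1) := by exact_mod_cast hn.2
  have h3 : (2 : ℝ) ≤ 2 ^ k := by
    have := pow_le_pow_right₀ (one_le_two : (1 : ℝ) ≤ 2) hk
    simpa using this
  have hpos : (0 : ℝ) < n := by linarith
  have h4 : 0 < Real.log n := Real.log_pos (by linarith)
  have h5 : Real.log n ≤ (k : ℝ) + 1 := by
    have h6 := Real.log_le_log hpos h2.le
    rw [Real.log_pow] at h6
    have h7 : Real.log 2 ≤ 1 := by have := Real.log_two_lt_d9; linarith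
    push_cast at h6
    have h8 : (0 : ℝ) ≤ (k : ℝ) + 1 := by positivity
    nlinarith
  unfold main
  have h6 : 0 < Real.log n ^ 2 := by positivity
  have h7 : Real.log n ^ 2 ≤ ((k : ℝ) + 1) ^ 2 := pow_le_pow_left₀ h4.le h5 2
  exact div_le_div₀ hpos.le h1 h6 h7

theorem rep_tr {Ω : Type} [MeasurableSpace Ω] {A : Ω → Set ℕ} {k n : ℕ} (hn : n < 2 ^ (k + 1)) (ω : Ω) :
    rep ((tr A (low (k + 1)) ω : Finset ℕ) : Set ℕ) n = rep (A ω) n := by
  unfold rep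
  congr 1
  ext a
  simp only [mem_filter, mem_range, mem_coe, mem_tr, low, mem_Ico]
  constructor
  · rintro ⟨h0, ⟨_, h1⟩, ⟨_, h2⟩, h3, h4⟩
    exact ⟨h0, h1, h2, h3, h4⟩
  · rintro ⟨h0, h1, h2, h3, h4⟩
    exact ⟨h0, ⟨⟨h3, by omega⟩, h1⟩, ⟨⟨h4, by omega⟩, h2⟩, h3, h4⟩

theorem summable_sq : Summable (fun k : ℕ => (k : ℝ) ^ 2 / 2 ^ k) := by
  have h := summable_pow_mul_geometric_of_norm_lt_one (R := ℝ) 2 (r := 1 / 2) (by norm_num)
  refine h.congr fun k => ?_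
  rw [one_div, inv_pow, div_eq_mul_inv]

theorem eventually_cube (c : ℝ) (hc : 0 < c) : ∀ᶠ k : ℕ in atTop, (k : ℝ) ^ 3 ≤ c * 2 ^ k := by
  have h : Summable (fun k : ℕ => (k : ℝ) ^ 3 / 2 ^ k) := by
    have h := summable_pow_mul_geometric_of_norm_lt_one (R := ℝ) 3 (r := 1 / 2) (by norm_num)
    refine h.congr fun k => ?_
    rw [one_div, inv_pow, div_eq_mul_inv]
  filter_upwards [h.tendsto_atTop_zero.eventually_le_const hc] with k hk
  rwa [div_le_iff₀ (by positivity)] at hk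

theorem sum_one (hMOM : J_MOM) (hDEV : J_DEV) (hLAW : J_LAW) (hENT : J_ENT) {Ω : Type} [MeasurableSpace Ω]
    {μ : Measure Ω} [IsProbabilityMeasure μ] {A : Ω → Set ℕ} (hA : IsRandomSet A) {d : ℕ → ℝ}
    (hd : ∀ᶠ k : ℕ in atTop, relEntropy μ A (low (k + 1)) ≤ d k)
    (hs : Summable (fun k : ℕ => d k * k ^ 2 / 2 ^ k)) {ε : ℝ} (hε : 0 < ε) (hε1 : ε ≤ 1) :
    ∀ᵐ ω ∂μ, ∀ᶠ n : ℕ in atTop, |(rep (A ω) n : ℝ) - main n| ≤ ε * main n := by
  classical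
  obtain ⟨c, hc, hdev⟩ := hDEV hMOM ε hε hε1
  obtain ⟨N, hN⟩ := eventually_atTop.1 hdev
  set F : ℕ → Finset ℕ → Prop := fun k T =>
    ∃ n ∈ Ico (2 ^ k) (2 ^ (k + 1)), ε * main n ≤ |(rep (T : Set ℕ) n : ℝ) - main n| with hF
  have hFtr : ∀ {Ω' : Type} [MeasurableSpace Ω'] (A' : Ω' → Set ℕ) (k : ℕ) (ω : Ω'), F k (tr A' (low (k + 1)) ω) ↔
      ∃ n ∈ Ico (2 ^ k) (2 ^ (k + 1)), ε * main n ≤ |(rep (A' ω) n : ℝ) - main n| := by
    intro Ω' _ A' k ω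
    simp only [hF]
    refine exists_congr fun n => and_congr_right fun hn => ?_
    rw [rep_tr (mem_Ico.1 hn).2]
  -- the probability in the model
  have hmod : ∀ᶠ k : ℕ in atTop, ∀ (Ω' : Type) [MeasurableSpace Ω'] (μ' : Measure Ω') [IsProbabilityMeasure μ']
      (A' : Ω' → Set ℕ), IsModel μ' pc A' →
      μ'.real {ω | F k (tr A' (low (k + 1)) ω)} ≤ Real.exp (-(c / 8 * 2 ^ k / k ^ 2)) := by
    have hN2 : ∀ᶠ k : ℕ in atTop, N ≤ 2 ^ k := by
      filter_upwards [eventually_ge_atTop N] with k hk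
      exact hk.trans Nat.lt_two_pow_self.le
    filter_upwards [hN2, eventually_cube (c / 8) (by positivity), eventually_ge_atTop 1] with k h1 h2 h3
    intro Ω' _ μ' _ A' hA'
    have e1 : {ω | F k (tr A' (low (k + 1)) ω)} =
        ⋃ n ∈ Ico (2 ^ k) (2 ^ (k + 1)), {ω | ε * main n ≤ |(rep (A' ω) n : ℝ) - main n|} := by
      ext ω
      simp only [Set.mem_ofPred_eq, Set.mem_iUnion, exists_prop]
      exact hFtr A' k ω
    rw [e1]
    refine (measureReal_biUnion_finset_le _ _).trans ?_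
    have e2 : ∀ n ∈ Ico (2 ^ k) (2 ^ (k + 1)), μ'.real {ω | ε * main n ≤ |(rep (A' ω) n : ℝ) - main n|} ≤
        Real.exp (-(c * (2 ^ k / ((k : ℝ) + 1) ^ 2))) := by
      intro n hn
      refine (hN n (h1.trans (mem_Ico.1 hn).1) Ω' μ' A' hA').trans ?_
      rw [Real.exp_le_exp, neg_le_neg_iff]
      exact mul_le_mul_of_nonneg_left (main_ge h3 hn) hc.le
    refine (sum_le_sum e2).trans ?_
    rw [sum_const, Nat.card_Ico, nsmul_eq_mul]
    have e3 : 2 ^ (k + 1) - 2 ^ k = 2 ^ k := by rw [pow_succ]; omega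
    rw [e3]
    push_cast
    have e4 : (2 : ℝ) ^ k ≤ Real.exp k := by
      rw [← Real.exp_one_pow]
      exact pow_le_pow_left₀ (by norm_num) (by have := Real.exp_one_gt_d9; linarith) k
    refine (mul_le_mul_of_nonneg_right e4 (Real.exp_pos _).le).trans ?_
    rw [← Real.exp_add, Real.exp_le_exp]
    have hk0 : (1 : ℝ) ≤ k := by exact_mod_cast h3
    have e5 : (2 : ℝ) ^ k / (4 * (k : ℝ) ^ 2) ≤ 2 ^ k / ((k : ℝ) + 1) ^ 2 := by
      apply div_le_div_of_nonneg_left (by positivity) (by positivity)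
      nlinarith
    have e6 : (k : ℝ) ≤ c / 8 * 2 ^ k / k ^ 2 := by
      rw [le_div_iff₀ (by positivity)]
      calc (k : ℝ) * k ^ 2 = k ^ 3 := by ring
        _ ≤ _ := h2
    have e7 : c * (2 ^ k / (4 * (k : ℝ) ^ 2)) ≤ c * (2 ^ k / ((k : ℝ) + 1) ^ 2) :=
      mul_le_mul_of_nonneg_left e5 hc.le
    have e8 : c * (2 ^ k / (4 * (k : ℝ) ^ 2)) = 2 * (c / 8 * 2 ^ k / k ^ 2) := by
      field_simp
      ring
    linarith
  -- transfer
  have hbc : ∀ᶠ k : ℕ in atTop, μ.real {ω | F k (tr A (low (k + 1)) ω)} ≤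
      8 / c * (k ^ 2 / 2 ^ k + d k * k ^ 2 / 2 ^ k) := by
    filter_upwards [hmod, hd, eventually_ge_atTop 1] with k h1 h2 h3
    have hk0 : (1 : ℝ) ≤ k := by exact_mod_cast h3
    have hu : 0 < c / 8 * 2 ^ k / (k : ℝ) ^ 2 := by positivity
    have h4 := hENT hLAW k (F k) _ hu (fun Ω' _ μ' _ A' hA' => h1 Ω' μ' A' hA') Ω μ A hA
    refine h4.trans ?_
    rw [div_le_iff₀ hu]
    have h5 : 8 / c * (k ^ 2 / 2 ^ k + d k * k ^ 2 / 2 ^ k) * (c / 8 * 2 ^ k / (k : ℝ) ^ 2) = 1 + d k := by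
      field_simp
    rw [h5]
    linarith
  have hsum : Summable fun k : ℕ => 8 / c * ((k : ℝ) ^ 2 / 2 ^ k + d k * k ^ 2 / 2 ^ k) :=
    (summable_sq.add hs).mul_left _
  filter_upwards [bc hsum hbc] with ω hω
  obtain ⟨K, hK⟩ := eventually_atTop.1 hω
  filter_upwards [eventually_ge_atTop (2 ^ K), eventually_ge_atTop 1] with n hn hn1
  have h1 : n ∈ Ico (2 ^ (Nat.log 2 n)) (2 ^ (Nat.log 2 n + 1)) := by
    rw [mem_Ico]
    exact ⟨Nat.pow_log_le_self 2 (by omega), Nat.lt_pow_succ_log_self (by norm_num) n⟩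
  have h2 : K ≤ Nat.log 2 n := (Nat.le_log_iff_pow_le (by norm_num) (by omega)).2 hn
  have h3 := hK _ h2
  rw [hFtr A] at h3
  push Not at h3
  exact (h3 n h1).le

theorem t_SUM : J_SUM := by
  intro hMOM hDEV hLAW hENT Ω _ μ _ A hA d hd hs
  have h1 : ∀ᵐ ω ∂μ, ∀ j : ℕ, ∀ᶠ n : ℕ in atTop,
      |(rep (A ω) n : ℝ) - main n| ≤ (1 / ((j : ℝ) + 1)) * main n := by
    rw [ae_all_iff]
    intro j
    refine sum_one hMOM hDEV hLAW hENT hA hd hs (by positivity) ?_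
    rw [div_le_one (by positivity)]
    have : (0 : ℝ) ≤ j := by positivity
    linarith
  filter_upwards [h1] with ω hω ε hε
  obtain ⟨j, hj⟩ := exists_nat_one_div_lt hε
  filter_upwards [hω j] with n hn
  exact hn.trans (mul_le_mul_of_nonneg_right hj.le (main_nonneg n))

end Pool.Agent.Q111.GE
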